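import Pool.Agent.U728.KP.Stm

/-!
# Project KP, package BLOW: coverings over larger alphabets
-/

set_option autoImplicit false

namespace Pool.Agent.U55.KP.BLOW

open Pool.Agent.U728.KP

lemma dist_le_one {m : ℕ} {α : Type} [DecidableEq α] (x y : Fin (m + 1) → α) :
    hammingDist x y ≤ 1 ↔ ∃ i, ∀ j, j ≠ i → x j = y j := by
  unfold hammingDist
  rw [Finset.card_le_one_iff_subset_singleton]
  constructor
  · rintro ⟨i, hi⟩
    refine ⟨i, fun j hj => ?_⟩
    by_contra hne
    have := hi (Finset.mem_filter.2 ⟨Finset.mem_univ _, hne⟩)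
    exact hj (Finset.mem_singleton.1 this)
  · rintro ⟨i, hi⟩
    refine ⟨i, fun j hj => ?_⟩
    rw [Finset.mem_singleton]
    by_contra hne
    exact (Finset.mem_filter.1 hj).2 (hi j hne)

/-- the word with the first components `(-∑ t, t)` and the second components `c` -/
def wd {m v q : ℕ} [NeZero v] (t : Fin m → Fin v) (c : Fin (m + 1) → Fin q) : Fin (m + 1) → Fin (v * q) :=
  fun i => finProdFinEquiv ((Fin.cons (-∑ k, t k) t : Fin (m + 1) → Fin v) i, c i)

theorem t_BLOW : S_BLOW := by
  intro m v q N hm hv hC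
  obtain ⟨m, rfl⟩ : ∃ k, m = k + 1 := ⟨m - 1, by omega⟩
  have : NeZero v := ⟨hv.ne'⟩
  obtain ⟨C, hcov, hcard⟩ := hC
  refine ⟨(((Finset.univ : Finset (Fin m → Fin v)) ×ˢ C).image fun p => wd p.1 p.2), ?_, ?_⟩
  · intro x
    obtain ⟨c, hc, hd⟩ := hcov fun i => (finProdFinEquiv.symm (x i)).2
    rw [dist_le_one] at hd
    obtain ⟨i, hi⟩ := hd
    set u : Fin (m + 1) → Fin v := fun k => (finProdFinEquiv.symm (x k)).1 with hu
    set u' : Fin (m + 1) → Fin v := Function.update u i (u i - ∑ k, u k) with hu'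
    have hsum : ∑ k, u' k = 0 := by
      rw [hu', Finset.sum_update_of_mem (Finset.mem_univ i)]
      have h1 := Finset.add_sum_erase Finset.univ u (Finset.mem_univ i)
      rw [Finset.sdiff_singleton_eq_erase]
      rw [← h1]
      abel
    have hcons : (Fin.cons (-∑ k, Fin.tail u' k) (Fin.tail u') : Fin (m + 1) → Fin v) = u' := by
      have h0 : -∑ k, Fin.tail u' k = u' 0 := by
        rw [Fin.sum_univ_succ] at hsum
        have : ∑ k, Fin.tail u' k = ∑ k : Fin m, u' k.succ := rfl
        rw [this]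
        exact (eq_neg_of_add_eq_zero_left hsum).symm
      rw [h0, Fin.cons_self_tail]
    refine ⟨wd (Fin.tail u') c, Finset.mem_image.2 ⟨(Fin.tail u', c),
      Finset.mem_product.2 ⟨Finset.mem_univ _, hc⟩, rfl⟩, ?_⟩
    rw [dist_le_one]
    refine ⟨i, fun j hj => ?_⟩
    have h2 := hi j hj
    simp only [wd, hcons]
    rw [← h2, hu', Function.update_of_ne hj, hu]
    exact (finProdFinEquiv.apply_symm_apply (x j)).symm
  · refine Finset.card_image_le.trans ?_
    rw [Finset.card_product, Finset.card_univ, Fintype.card_fun, Fintype.card_fin, Fintype.card_fin]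
    exact Nat.mul_le_mul_left _ hcard

end Pool.Agent.U55.KP.BLOW
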